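import Pool.Agent.Leo3.Stmts

/-!
Squad leo3, module CRT: cube roots of elements close to `1`.
-/

set_option autoImplicit false

namespace Pool.Agent.Leo3.H65

open Pool.Agent.Leo3

lemma norm_aut (ρ : Om ≃ₐ[ℚ_[3]] Om) (x : Om) : ‖ρ x‖ = ‖x‖ := by
  rw [← PadicAlgCl.spectralNorm_eq, ← PadicAlgCl.spectralNorm_eq]
  exact (spectralNorm_eq_of_equiv ρ x).symm

lemma norm_three : ‖(3 : Om)‖ = 3⁻¹ := by
  have h1 : (3 : Om) = algebraMap ℚ_[3] Om (3 : ℚ_[3]) :=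
    (map_ofNat (algebraMap ℚ_[3] Om) 3).symm
  rw [h1, PadicAlgCl.norm_extends]
  have := Padic.norm_p (p := 3)
  simpa using this

lemma norm_add_of_lt {x y : Om} (h : ‖x‖ < ‖y‖) : ‖x + y‖ = ‖y‖ := by
  have hna := PadicAlgCl.isNonarchimedean 3
  refine le_antisymm ((hna x y).trans (max_le h.le le_rfl)) ?_
  by_contra hcon
  push Not at hcon
  have h1 : ‖y‖ ≤ max ‖x + y‖ ‖-x‖ := by
    have := hna (x + y) (-x)
    simpa using this
  rw [norm_neg] at h1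
  rcases le_max_iff.1 h1 with h2 | h2 <;> linarith

theorem crt : CrtStmt := by
  intro L _ φ w hw j hj hwj
  obtain ⟨z, hz⟩ : ∃ z : Om, z ^ 2 + z + 1 = 0 := by
    obtain ⟨z, hz⟩ := IsAlgClosed.exists_root
      (Polynomial.X ^ 2 + Polynomial.X + 1 : Polynomial Om) (by
        have h1 : (Polynomial.X ^ 2 + Polynomial.X + 1 : Polynomial Om).natDegree = 2 := by
          compute_degree!
        intro h
        rw [Polynomial.natDegree_eq_of_degree_eq_some h] at h1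
        exact absurd h1 (by norm_num))
    refine ⟨z, ?_⟩
    have h2 : Polynomial.eval z (Polynomial.X ^ 2 + Polynomial.X + 1 : Polynomial Om) = 0 := hz
    simpa using h2
  have hz3 : z ^ 3 = 1 := by linear_combination (z - 1) * hz
  have hzn : ‖z‖ = 1 := by
    have h1 : ‖z‖ ^ 3 = 1 := by rw [← norm_pow, hz3, norm_one]
    exact (pow_eq_one_iff_of_nonneg (norm_nonneg z) (by norm_num)).1 h1
  obtain ⟨s, hs⟩ : ∃ s : ℝ, s = ‖z - 1‖ := ⟨_, rfl⟩
  have hs0 : 0 ≤ s := by rw [hs]; exact norm_nonneg _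
  have hs' : ‖z ^ 2 - 1‖ = s := by
    have h1 : z ^ 2 - 1 = - (z - 1) * z ^ 2 := by linear_combination (z - 1) * hz
    rw [h1, norm_mul, norm_neg, norm_pow, hzn, hs]
    ring
  have hs2 : s ^ 2 = 3⁻¹ := by
    have h1 : (z - 1) * (z ^ 2 - 1) = 3 := by linear_combination (z - 2) * hz
    have h2 : ‖(z - 1) * (z ^ 2 - 1)‖ = 3⁻¹ := by rw [h1, norm_three]
    rw [norm_mul, hs', ← hs] at h2
    linarith
  -- a root
  obtain ⟨w0, hw0⟩ := IsAlgClosed.exists_pow_nat_eq w (n := 3) (by norm_num)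
  have hprod : ∀ v : Om, v ^ 3 = w → ‖v - 1‖ * ‖z * v - 1‖ * ‖z ^ 2 * v - 1‖ = ‖w - 1‖ := by
    intro v hv
    rw [← norm_mul, ← norm_mul, ← hv]
    congr 1
    linear_combination (v ^ 3 * (z - 1) - v ^ 2 * z + v) * hz
  have hw9 : ‖w - 1‖ ≤ 9⁻¹ := by
    refine hwj.trans ?_
    have : (3 : ℝ)⁻¹ ^ j ≤ (3 : ℝ)⁻¹ ^ 2 := pow_le_pow_of_le_one (by norm_num) (by norm_num) hj
    refine this.trans (by norm_num)
  -- a root close to one
  obtain ⟨w', hw', hclose⟩ : ∃ w' : Om, w' ^ 3 = w ∧ ‖w' - 1‖ < s := by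
    by_contra hcon
    push Not at hcon
    have a1 := hcon w0 hw0
    have a2 := hcon (z * w0) (by rw [mul_pow, hz3, hw0, one_mul])
    have a3 := hcon (z ^ 2 * w0) (by
      rw [mul_pow, hw0, ← pow_mul, mul_comm 2 3, pow_mul, hz3, one_pow, one_mul])
    have a4 := hprod w0 hw0
    have a5 : s * s * s ≤ ‖w0 - 1‖ * ‖z * w0 - 1‖ * ‖z ^ 2 * w0 - 1‖ := by gcongr
    rw [a4] at a5
    have a6 : s * s * s ≤ 9⁻¹ := a5.trans hw9
    have a7 : s * s * s = 3⁻¹ * s := by rw [← hs2]; ring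
    rw [a7] at a6
    have a8 : s ≤ 3⁻¹ := by linarith
    have a9 : s ^ 2 ≤ (3⁻¹) ^ 2 := by gcongr
    rw [hs2] at a9
    norm_num at a9
  have hz1 : ∀ v : Om, ‖v - 1‖ < s → ‖z * v - 1‖ = s := by
    intro v hv
    have h1 : z * v - 1 = z * (v - 1) + (z - 1) := by ring
    rw [h1, norm_add_of_lt, hs]
    rw [norm_mul, hzn, one_mul, ← hs]
    exact hv
  have hz2 : ∀ v : Om, ‖v - 1‖ < s → ‖z ^ 2 * v - 1‖ = s := by
    intro v hv
    have h1 : z ^ 2 * v - 1 = z ^ 2 * (v - 1) + (z ^ 2 - 1) := by ring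
    rw [h1, norm_add_of_lt, hs']
    rw [norm_mul, norm_pow, hzn, one_pow, one_mul, hs']
    exact hv
  refine ⟨w', ?_, hw', ?_⟩
  · intro ρ hρ
    have h1 : (ρ w') ^ 3 = w := by rw [← map_pow, hw', hw ρ hρ]
    have h2 : ‖ρ w' - 1‖ < s := by
      have : ρ w' - 1 = ρ (w' - 1) := by rw [map_sub, map_one]
      rw [this, norm_aut]
      exact hclose
    have h3 : (ρ w' - w') * (ρ w' - z * w') * (ρ w' - z ^ 2 * w') = 0 := by
      have : (ρ w' - w') * (ρ w' - z * w') * (ρ w' - z ^ 2 * w') = (ρ w') ^ 3 - w' ^ 3 := by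
        linear_combination (-(ρ w') ^ 2 * w' + (ρ w') * w' ^ 2 * z - w' ^ 3 * (z - 1)) * hz
      rw [this, h1, hw', sub_self]
    rcases mul_eq_zero.1 h3 with h4 | h4
    · rcases mul_eq_zero.1 h4 with h5 | h5
      · exact sub_eq_zero.1 h5
      · rw [sub_eq_zero] at h5
        have := hz1 w' hclose
        rw [← h5] at this
        linarith
    · rw [sub_eq_zero] at h4
      have := hz2 w' hclose
      rw [← h4] at this
      linarith
  · have h1 := hprod w' hw'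
    rw [hz1 w' hclose, hz2 w' hclose] at h1
    have h2 : ‖w' - 1‖ * 3⁻¹ = ‖w - 1‖ := by rw [← h1, ← hs2]; ring
    have h3 : ‖w' - 1‖ = 3 * ‖w - 1‖ := by linarith
    rw [h3]
    obtain ⟨k, rfl⟩ : ∃ k, j = k + 1 := ⟨j - 1, by omega⟩
    rw [Nat.add_sub_cancel]
    rw [pow_succ] at hwj
    linarith

end Pool.Agent.Leo3.H65
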